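import Pool.Agent.helper84.TEX.Spec

/-! Row XE4: irreducible polynomials of every degree over a prime field. -/

set_option autoImplicit false

namespace Pool.Agent.TEX

open Pool.Agent.TC Pool.Agent.TN Polynomial

noncomputable section

theorem XE4 : XE4_stmt := by
  intro s n hs hn
  haveI : Fact s.Prime := ⟨hs⟩
  haveI : FiniteDimensional (ZMod s) (GaloisField s n) := inferInstance
  haveI : Algebra.IsSeparable (ZMod s) (GaloisField s n) := inferInstance
  obtain ⟨θ, hθ⟩ := Field.exists_primitive_element (ZMod s) (GaloisField s n)
  have h1 := (Field.primitive_element_iff_minpoly_natDegree_eq (ZMod s) θ).1 hθ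
  rw [GaloisField.finrank s hn.ne'] at h1
  exact ⟨minpoly (ZMod s) θ, minpoly.monic (Algebra.IsIntegral.isIntegral θ),
    minpoly.irreducible (Algebra.IsIntegral.isIntegral θ), h1⟩

end

end Pool.Agent.TEX
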