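import Pool.Agent.helper84.TEX.Spec

/-! Row XE5: lifting coefficients, and congruences. -/

set_option autoImplicit false

namespace Pool.Agent.TEX

open Pool.Agent.TC Pool.Agent.TN Polynomial

noncomputable section

theorem XE5_map {n : ℕ} {R : Type} [CommRing R] (φ : ℤ →+* R) (f : Fin (n + 1) → ℤ) :
    (pol f).map φ = X ^ (n + 1) + ∑ k, C (φ (f k)) * X ^ (k : ℕ) := by
  unfold pol
  rw [Polynomial.map_add, Polynomial.map_pow, Polynomial.map_X, Polynomial.map_sum]
  refine congrArg (fun z => X ^ (n + 1) + z) (Finset.sum_congr rfl fun k _ => ?_)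
  rw [Polynomial.map_mul, Polynomial.map_C, Polynomial.map_pow, Polynomial.map_X]

theorem XE5 : XE5_stmt := by
  refine ⟨fun n M h hm hd => ?_, fun n M f f' hf => ?_⟩
  · have h1 : ∀ k : Fin (n + 1), ∃ a : ℤ, (a : ZMod M) = h.coeff k := fun k => ZMod.intCast_surjective _
    choose f hf using h1
    refine ⟨f, ?_⟩
    rw [XE5_map]
    have h2 := hm.as_sum
    rw [hd, Finset.sum_range] at h2
    conv_rhs => rw [h2]
    refine congrArg (fun z => X ^ (n + 1) + z) (Finset.sum_congr rfl fun k _ => ?_)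
    rw [← hf k]
    rfl
  · rw [XE5_map, XE5_map]
    refine congrArg (fun z => X ^ (n + 1) + z) (Finset.sum_congr rfl fun k _ => ?_)
    have h1 : (Int.castRingHom (ZMod M)) (f k) = (Int.castRingHom (ZMod M)) (f' k) := by
      show ((f k : ℤ) : ZMod M) = ((f' k : ℤ) : ZMod M)
      rw [← sub_eq_zero, ← Int.cast_sub, ZMod.intCast_zmod_eq_zero_iff_dvd]
      exact hf k
    rw [h1]

end

end Pool.Agent.TEX
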