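import Pool.Agent.helper84.TEX.Spec

/-! Row XE9: the local polynomials are given by residue classes. -/

set_option autoImplicit false

namespace Pool.Agent.TEX

open Pool.Agent.TC Pool.Agent.TN Polynomial

noncomputable section

theorem XE9_prod {R : Type} [CommRing R] [Nontrivial R] {ι : Type} (s : Finset ι) (c : ι → R) :
    (∏ k ∈ s, (X - C (c k))).Monic ∧ (∏ k ∈ s, (X - C (c k))).natDegree = s.card := by
  have h1 : ∀ k ∈ s, (X - C (c k)).Monic := fun k _ => monic_X_sub_C _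
  refine ⟨monic_prod_of_monic s _ h1, ?_⟩
  rw [natDegree_prod_of_monic s _ h1]
  simp

theorem XE9 (hXE4 : XE4_stmt) (hXE5 : XE5_stmt) : XE9_stmt := by
  intro n r s hn hr hs
  haveI : Fact r.Prime := ⟨hr⟩
  haveI : Fact s.Prime := ⟨hs⟩
  refine ⟨?_, ?_, ?_⟩
  · obtain ⟨h1, h2⟩ := XE9_prod (R := ZMod r) (Finset.univ : Finset (Fin (n + 1))) (fun k => ((k : ℕ) : ZMod r))
    rw [Finset.card_univ, Fintype.card_fin] at h2
    obtain ⟨t, ht⟩ := hXE5.1 n r _ h1 h2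
    refine ⟨t, fun f hf => ?_⟩
    unfold LocA
    rw [hXE5.2 n r f t hf, ht]
  · have hr3 : 1 < r ^ 3 := Nat.one_lt_pow (by norm_num) hr.one_lt
    haveI : Fact (1 < r ^ 3) := ⟨hr3⟩
    obtain ⟨h1, h2⟩ := XE9_prod (R := ZMod (r ^ 3)) (Finset.Ico 1 n) (fun k => ((k : ℕ) : ZMod (r ^ 3)))
    rw [Nat.card_Ico] at h2
    have h3 : (X * (X - C ((r : ℕ) : ZMod (r ^ 3)))).Monic := monic_X.mul (monic_X_sub_C _)
    have h4 : (X * (X - C ((r : ℕ) : ZMod (r ^ 3)))).natDegree = 2 := by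
      rw [monic_X.natDegree_mul (monic_X_sub_C _), natDegree_X, natDegree_X_sub_C]
    have h5 := h3.mul h1
    have h6 := h3.natDegree_mul h1
    rw [h4, h2] at h6
    obtain ⟨t, ht⟩ := hXE5.1 n (r ^ 3) _ h5 (by rw [h6]; omega)
    refine ⟨t, fun f hf => ?_⟩
    unfold LocB
    rw [hXE5.2 n (r ^ 3) f t hf, ht]
  · obtain ⟨g, h1, h2, h3⟩ := hXE4 s n hs (by omega)
    have h4 : (X * g).Monic := monic_X.mul h1
    have h5 : (X * g).natDegree = n + 1 := by
      rw [monic_X.natDegree_mul h1, natDegree_X, h3]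
      omega
    obtain ⟨t, ht⟩ := hXE5.1 n s _ h4 h5
    refine ⟨t, fun f hf => ⟨g, h2, ?_⟩⟩
    rw [hXE5.2 n s f t hf, ht]

end

end Pool.Agent.TEX
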