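import Pool.Agent.helper84.TEX.Spec

/-! Row XHA: simple roots. -/

set_option autoImplicit false

namespace Pool.Agent.TEX

open Pool.Agent.TC Pool.Agent.TN Polynomial

noncomputable section

theorem XHA_lt {r : ℕ} [Fact r.Prime] (x : ℤ_[r]) : ‖x‖ < 1 ↔ PadicInt.toZMod x = 0 := by
  rw [← RingHom.mem_ker, PadicInt.ker_toZMod, PadicInt.maximalIdeal_eq_span_p, Ideal.mem_span_singleton]
  exact PadicInt.norm_lt_one_iff_dvd x

theorem XHA_one {r : ℕ} [Fact r.Prime] (x : ℤ_[r]) (h : PadicInt.toZMod x ≠ 0) : ‖x‖ = 1 := by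
  have h1 : ¬ ‖x‖ < 1 := fun h2 => h ((XHA_lt x).1 h2)
  exact le_antisymm (PadicInt.norm_le_one x) (not_lt.1 h1)

/-- The value of an integral polynomial modulo `r`. -/
theorem XHA_eval {r : ℕ} [Fact r.Prime] (F : Polynomial ℤ) (x : ℤ_[r]) :
    PadicInt.toZMod ((F.map (Int.castRingHom ℤ_[r])).eval x) =
      (F.map (Int.castRingHom (ZMod r))).eval (PadicInt.toZMod x) := by
  rw [eval_map, eval_map, hom_eval₂]
  congr 1
  exact Subsingleton.elim _ _

/-- Hensel's lemma for a simple zero modulo `r`. -/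
theorem XHA_hensel {r : ℕ} [Fact r.Prime] (F : Polynomial ℤ) (c : ℕ)
    (h0 : (F.map (Int.castRingHom (ZMod r))).eval (c : ZMod r) = 0)
    (h1 : (F.map (Int.castRingHom (ZMod r))).derivative.eval (c : ZMod r) ≠ 0) :
    ∃ z : ℤ_[r], (F.map (Int.castRingHom ℤ_[r])).eval z = 0 ∧ PadicInt.toZMod z = (c : ZMod r) := by
  have hc : PadicInt.toZMod ((c : ℕ) : ℤ_[r]) = (c : ZMod r) := map_natCast _ _
  have h2 : ‖(F.map (Int.castRingHom ℤ_[r])).eval ((c : ℕ) : ℤ_[r])‖ < 1 := by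
    rw [XHA_lt, XHA_eval, hc]
    exact h0
  have h3 : ‖(F.map (Int.castRingHom ℤ_[r])).derivative.eval ((c : ℕ) : ℤ_[r])‖ = 1 := by
    refine XHA_one _ ?_
    rw [derivative_map, XHA_eval, hc, ← derivative_map]
    exact h1
  have h4 : ‖(F.map (Int.castRingHom ℤ_[r])).aeval ((c : ℕ) : ℤ_[r])‖ <
      ‖(F.map (Int.castRingHom ℤ_[r])).derivative.aeval ((c : ℕ) : ℤ_[r])‖ ^ 2 := by
    rw [coe_aeval_eq_eval, h3, one_pow]
    exact h2
  obtain ⟨z, hz, hz1, -, -⟩ := hensels_lemma h4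
  rw [coe_aeval_eq_eval] at hz
  refine ⟨z, hz, ?_⟩
  have h5 : ‖z - ((c : ℕ) : ℤ_[r])‖ < 1 := by
    rw [coe_aeval_eq_eval, h3] at hz1
    exact hz1
  rw [XHA_lt, map_sub, hc, sub_eq_zero] at h5
  exact h5

theorem XHA_cast {r a b : ℕ} (ha : a < r) (hb : b < r) (h : ((a : ℕ) : ZMod r) = ((b : ℕ) : ZMod r)) : a = b := by
  rw [ZMod.natCast_eq_natCast_iff'] at h
  rwa [Nat.mod_eq_of_lt ha, Nat.mod_eq_of_lt hb] at h

theorem XHA : XHA_stmt := by
  classical
  intro n r _ f hnr hf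
  unfold LocA at hf
  have h0 : ∀ k : Fin (n + 1), ((pol f).map (Int.castRingHom (ZMod r))).eval (((k : ℕ) : ℕ) : ZMod r) = 0 := by
    intro k
    rw [hf, eval_prod]
    refine Finset.prod_eq_zero (Finset.mem_univ k) ?_
    rw [eval_sub, eval_X, eval_C, sub_self]
  have h1 : ∀ k : Fin (n + 1), ((pol f).map (Int.castRingHom (ZMod r))).derivative.eval (((k : ℕ) : ℕ) : ZMod r) ≠ 0 := by
    intro k
    rw [hf, ← Finset.mul_prod_erase Finset.univ _ (Finset.mem_univ k), derivative_mul, eval_add, eval_mul, eval_mul,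
      derivative_X_sub_C, eval_one, one_mul, eval_sub, eval_X, eval_C, sub_self, zero_mul, add_zero, eval_prod]
    refine Finset.prod_ne_zero_iff.2 fun k' hk' => ?_
    rw [eval_sub, eval_X, eval_C, sub_ne_zero]
    intro h
    have h2 := XHA_cast (by omega) (by omega) h
    exact (Finset.ne_of_mem_erase hk') (Fin.ext h2.symm)
  have h2 : ∀ k : Fin (n + 1), ∃ z : ℤ_[r], ((pol f).map (Int.castRingHom ℤ_[r])).eval z = 0 ∧
      PadicInt.toZMod z = (((k : ℕ) : ℕ) : ZMod r) := fun k => XHA_hensel (pol f) k (h0 k) (h1 k)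
  choose α hα hα1 using h2
  refine ⟨α, hα, fun k k' hkk' => XHA_one _ ?_⟩
  rw [map_sub, hα1, hα1, sub_ne_zero]
  intro h
  exact hkk' (Fin.ext (XHA_cast (by omega) (by omega) h))

end

end Pool.Agent.TEX
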