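import Pool.Agent.helper93.TEX.XHA

/-! Row XHB: a double root modulo `r`. -/

set_option autoImplicit false

namespace Pool.Agent.TEX

open Pool.Agent.TC Pool.Agent.TN Polynomial

noncomputable section

/-- The comparison polynomial. -/
def XHB_G (n r : ℕ) (R : Type) [CommRing R] : Polynomial R :=
  X * (X - C ((r : ℕ) : R)) * ∏ k ∈ Finset.Ico 1 n, (X - C ((k : ℕ) : R))

theorem XHB_G_map (n r : ℕ) {R R' : Type} [CommRing R] [CommRing R'] (φ : R →+* R') :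
    (XHB_G n r R).map φ = XHB_G n r R' := by
  unfold XHB_G
  rw [Polynomial.map_mul, Polynomial.map_mul, Polynomial.map_X, Polynomial.map_sub, Polynomial.map_X,
    Polynomial.map_C, Polynomial.map_prod, map_natCast]
  refine congrArg (fun z => X * (X - C ((r : ℕ) : R')) * z) (Finset.prod_congr rfl fun k _ => ?_)
  rw [Polynomial.map_sub, Polynomial.map_X, Polynomial.map_C, map_natCast]

theorem XHB_small {r : ℕ} [Fact r.Prime] (x : ℤ_[r]) (h : PadicInt.toZModPow 3 x = 0) :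
    ‖x‖ ≤ ((r : ℝ)⁻¹) ^ 3 := by
  have h1 : x ∈ RingHom.ker (PadicInt.toZModPow 3 : ℤ_[r] →+* ZMod (r ^ 3)) := h
  rw [PadicInt.ker_toZModPow, ← PadicInt.norm_le_pow_iff_mem_span_pow] at h1
  refine h1.trans (le_of_eq ?_)
  rw [inv_pow, ← zpow_natCast, ← zpow_neg]

theorem XHB_close {r : ℕ} [Fact r.Prime] (F : Polynomial ℤ) (G : Polynomial ℤ_[r])
    (h : F.map (Int.castRingHom (ZMod (r ^ 3))) = G.map (PadicInt.toZModPow 3)) (x : ℤ_[r]) :
    ‖(F.map (Int.castRingHom ℤ_[r])).eval x - G.eval x‖ ≤ ((r : ℝ)⁻¹) ^ 3 ∧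
    ‖(F.map (Int.castRingHom ℤ_[r])).derivative.eval x - G.derivative.eval x‖ ≤ ((r : ℝ)⁻¹) ^ 3 := by
  have h0 : (F.map (Int.castRingHom ℤ_[r])).map (PadicInt.toZModPow 3 : ℤ_[r] →+* ZMod (r ^ 3)) =
      F.map (Int.castRingHom (ZMod (r ^ 3))) := by
    rw [Polynomial.map_map]
    congr 1
    exact Subsingleton.elim _ _
  constructor
  · refine XHB_small _ ?_
    rw [map_sub, sub_eq_zero, ← eval_map_apply, ← eval_map_apply, h0, h]
  · refine XHB_small _ ?_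
    rw [map_sub, sub_eq_zero, ← eval_map_apply, ← eval_map_apply, ← derivative_map, ← derivative_map, h0, h]

theorem XHB_nat {r : ℕ} [Fact r.Prime] (k : ℕ) (h1 : 1 ≤ k) (h2 : k < r) : ‖((k : ℕ) : ℤ_[r])‖ = 1 := by
  refine XHA_one _ ?_
  rw [map_natCast]
  intro h
  have h3 : ((k : ℕ) : ZMod r) = ((0 : ℕ) : ZMod r) := by rw [h, Nat.cast_zero]
  have h4 := XHA_cast h2 (by omega) h3
  omega

/-- Hensel's lemma at a double zero modulo `r`. -/
theorem XHB_hensel {r : ℕ} [Fact r.Prime] (F : Polynomial ℤ_[r]) (a g : ℤ_[r]) (h0 : ‖F.eval a‖ ≤ ((r : ℝ)⁻¹) ^ 3)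
    (h1 : ‖F.derivative.eval a - g‖ ≤ ((r : ℝ)⁻¹) ^ 3) (hg : ‖g‖ = (r : ℝ)⁻¹) :
    ∃ z : ℤ_[r], F.eval z = 0 ∧ ‖z - a‖ < (r : ℝ)⁻¹ := by
  have hr : (1 : ℝ) < r := by exact_mod_cast (Fact.out : r.Prime).one_lt
  have hr0 : (0 : ℝ) < (r : ℝ)⁻¹ := inv_pos.2 (by linarith)
  have hr1 : (r : ℝ)⁻¹ < 1 := inv_lt_one_of_one_lt₀ hr
  have hp3 : ((r : ℝ)⁻¹) ^ 3 < (r : ℝ)⁻¹ := by
    calc ((r : ℝ)⁻¹) ^ 3 < ((r : ℝ)⁻¹) ^ 1 := pow_lt_pow_right_of_lt_one₀ hr0 hr1 (by norm_num)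
      _ = (r : ℝ)⁻¹ := pow_one _
  have hp2 : ((r : ℝ)⁻¹) ^ 3 < ((r : ℝ)⁻¹) ^ 2 := pow_lt_pow_right_of_lt_one₀ hr0 hr1 (by norm_num)
  have h2 : ‖F.derivative.eval a‖ = (r : ℝ)⁻¹ := by
    have h3 : F.derivative.eval a = (F.derivative.eval a - g) + g := by ring
    rw [h3, PadicInt.norm_add_eq_max_of_ne (by rw [hg]; exact (lt_of_le_of_lt h1 hp3).ne), hg]
    exact max_eq_right (h1.trans hp3.le)
  have h4 : ‖F.aeval a‖ < ‖F.derivative.aeval a‖ ^ 2 := by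
    rw [coe_aeval_eq_eval, h2]
    exact lt_of_le_of_lt h0 hp2
  obtain ⟨z, hz, hz1, -, -⟩ := hensels_lemma h4
  rw [coe_aeval_eq_eval] at hz
  rw [coe_aeval_eq_eval, h2] at hz1
  exact ⟨z, hz, hz1⟩

theorem XHB : XHB_stmt := by
  classical
  intro n r _ f hn hnr hf
  obtain ⟨m, rfl⟩ : ∃ m, n = m + 2 := ⟨n - 2, by omega⟩
  have hrp : r.Prime := Fact.out
  unfold LocB at hf
  have hf3 : (pol f).map (Int.castRingHom (ZMod (r ^ 3))) =
      (XHB_G (m + 2) r ℤ_[r]).map (PadicInt.toZModPow 3) := by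
    rw [XHB_G_map]
    exact hf
  have hf1 : (pol f).map (Int.castRingHom (ZMod r)) = XHB_G (m + 2) r (ZMod r) := by
    have h1 := congrArg (fun P => P.map (ZMod.castHom (dvd_pow_self r (by norm_num : (3 : ℕ) ≠ 0)) (ZMod r))) hf
    have h2 : ((pol f).map (Int.castRingHom (ZMod (r ^ 3)))).map
        (ZMod.castHom (dvd_pow_self r (by norm_num : (3 : ℕ) ≠ 0)) (ZMod r)) =
        (pol f).map (Int.castRingHom (ZMod r)) := by
      rw [Polynomial.map_map]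
      congr 1
      exact Subsingleton.elim _ _
    rw [← h2]
    exact h1.trans (XHB_G_map (m + 2) r _)
  obtain ⟨G, hG⟩ : ∃ G : Polynomial ℤ_[r], G = XHB_G (m + 2) r ℤ_[r] := ⟨_, rfl⟩
  rw [← hG] at hf3
  have hGd : ∀ x : ℤ_[r], G.derivative.eval x =
      (x - ((r : ℕ) : ℤ_[r])) * ∏ k ∈ Finset.Ico 1 (m + 2), (x - ((k : ℕ) : ℤ_[r])) +
        x * (∏ k ∈ Finset.Ico 1 (m + 2), (x - ((k : ℕ) : ℤ_[r]))) +
        x * (x - ((r : ℕ) : ℤ_[r])) * (derivative (∏ k ∈ Finset.Ico 1 (m + 2), (X - C ((k : ℕ) : ℤ_[r])))).eval x := by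
    intro x
    rw [hG]
    unfold XHB_G
    rw [derivative_mul, derivative_mul, derivative_X, derivative_X_sub_C, eval_add, eval_mul, eval_mul, eval_add,
      eval_mul, eval_mul, eval_mul, eval_prod, eval_one, eval_sub, eval_X, eval_C]
    have h2 : (∏ k ∈ Finset.Ico 1 (m + 2), (X - C ((k : ℕ) : ℤ_[r])).eval x) =
        ∏ k ∈ Finset.Ico 1 (m + 2), (x - ((k : ℕ) : ℤ_[r])) := by
      refine Finset.prod_congr rfl fun k _ => ?_
      rw [eval_sub, eval_X, eval_C]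
    rw [h2]
    ring
  have hGe : ∀ x : ℤ_[r], G.eval x = x * (x - ((r : ℕ) : ℤ_[r])) * ∏ k ∈ Finset.Ico 1 (m + 2), (x - ((k : ℕ) : ℤ_[r])) := by
    intro x
    rw [hG]
    unfold XHB_G
    rw [eval_mul, eval_mul, eval_sub, eval_X, eval_C, eval_prod]
    refine congrArg _ (Finset.prod_congr rfl fun k _ => ?_)
    rw [eval_sub, eval_X, eval_C]
  have hnr' : ‖((r : ℕ) : ℤ_[r])‖ = (r : ℝ)⁻¹ := PadicInt.norm_p
  obtain ⟨F, hF⟩ : ∃ F : Polynomial ℤ_[r], F = (pol f).map (Int.castRingHom ℤ_[r]) := ⟨_, rfl⟩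
  have hcl : ∀ x, ‖F.eval x - G.eval x‖ ≤ ((r : ℝ)⁻¹) ^ 3 ∧
      ‖F.derivative.eval x - G.derivative.eval x‖ ≤ ((r : ℝ)⁻¹) ^ 3 := by
    intro x
    rw [hF]
    exact XHB_close (pol f) G hf3 x
  -- the root near zero
  have ha0 : ∃ z : ℤ_[r], F.eval z = 0 ∧ ‖z - 0‖ < (r : ℝ)⁻¹ := by
    refine XHB_hensel F 0 (G.derivative.eval 0) ?_ (hcl 0).2 ?_
    · have h1 := (hcl 0).1
      rw [hGe, zero_mul, zero_mul, sub_zero] at h1
      exact h1
    · rw [hGd, zero_mul, zero_mul, zero_mul, add_zero, add_zero, norm_mul, zero_sub, norm_neg, hnr', norm_prod]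
      have h2 : (∏ k ∈ Finset.Ico 1 (m + 2), ‖(0 : ℤ_[r]) - ((k : ℕ) : ℤ_[r])‖) = 1 := by
        refine Finset.prod_eq_one fun k hk => ?_
        rw [Finset.mem_Ico] at hk
        rw [zero_sub, norm_neg]
        exact XHB_nat k hk.1 (by omega)
      rw [h2, mul_one]
  have ha1 : ∃ z : ℤ_[r], F.eval z = 0 ∧ ‖z - ((r : ℕ) : ℤ_[r])‖ < (r : ℝ)⁻¹ := by
    refine XHB_hensel F ((r : ℕ) : ℤ_[r]) (G.derivative.eval ((r : ℕ) : ℤ_[r])) ?_ (hcl _).2 ?_
    · have h1 := (hcl ((r : ℕ) : ℤ_[r])).1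
      rw [hGe, sub_self, mul_zero, zero_mul, sub_zero] at h1
      exact h1
    · rw [hGd, sub_self, zero_mul, mul_zero, zero_mul, zero_add, add_zero, norm_mul, hnr', norm_prod]
      have h2 : (∏ k ∈ Finset.Ico 1 (m + 2), ‖((r : ℕ) : ℤ_[r]) - ((k : ℕ) : ℤ_[r])‖) = 1 := by
        refine Finset.prod_eq_one fun k hk => ?_
        rw [Finset.mem_Ico] at hk
        have h3 : ((r : ℕ) : ℤ_[r]) - ((k : ℕ) : ℤ_[r]) = (((r - k : ℕ)) : ℤ_[r]) := by
          rw [Nat.cast_sub (by omega)]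
        rw [h3]
        exact XHB_nat (r - k) (by omega) (by omega)
      rw [h2, mul_one]
  obtain ⟨a0, ha0, ha0'⟩ := ha0
  obtain ⟨a1, ha1, ha1'⟩ := ha1
  rw [sub_zero] at ha0'
  -- the simple roots
  have hb : ∀ k : ℕ, ∃ z : ℤ_[r], 1 ≤ k → k < m + 2 → F.eval z = 0 ∧ PadicInt.toZMod z = ((k : ℕ) : ZMod r) := by
    intro k
    by_cases hk : 1 ≤ k ∧ k < m + 2
    · have hmem : k ∈ Finset.Ico 1 (m + 2) := Finset.mem_Ico.2 hk
      have hr0 : (((r : ℕ) : ℕ) : ZMod r) = 0 := ZMod.natCast_self r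
      have e0 : ((pol f).map (Int.castRingHom (ZMod r))).eval ((k : ℕ) : ZMod r) = 0 := by
        rw [hf1]
        unfold XHB_G
        rw [eval_mul, eval_prod, Finset.prod_eq_zero hmem, mul_zero]
        rw [eval_sub, eval_X, eval_C, sub_self]
      have e1 : ((pol f).map (Int.castRingHom (ZMod r))).derivative.eval ((k : ℕ) : ZMod r) ≠ 0 := by
        have h2 : XHB_G (m + 2) r (ZMod r) = (X - C ((k : ℕ) : ZMod r)) *
            (X * X * ∏ k' ∈ (Finset.Ico 1 (m + 2)).erase k, (X - C ((k' : ℕ) : ZMod r))) := by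
          unfold XHB_G
          rw [← Finset.mul_prod_erase _ _ hmem, hr0, C_0, sub_zero]
          ring
        have h5 : ∀ P : Polynomial (ZMod r), ((X - C ((k : ℕ) : ZMod r)) * P).derivative.eval ((k : ℕ) : ZMod r) =
            P.eval ((k : ℕ) : ZMod r) := by
          intro P
          rw [derivative_mul, derivative_X_sub_C, one_mul, eval_add, eval_mul, eval_sub, eval_X, eval_C, sub_self,
            zero_mul, add_zero]
        rw [hf1, h2, h5, eval_mul, eval_mul, eval_X, eval_prod]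
        have hk0 : ((k : ℕ) : ZMod r) ≠ 0 := by
          intro h
          have h3 : ((k : ℕ) : ZMod r) = ((0 : ℕ) : ZMod r) := by rw [h, Nat.cast_zero]
          have h4 := XHA_cast (by omega) (by omega) h3
          omega
        refine mul_ne_zero (mul_ne_zero hk0 hk0) (Finset.prod_ne_zero_iff.2 fun k' hk' => ?_)
        rw [eval_sub, eval_X, eval_C, sub_ne_zero]
        intro h
        have h3 := Finset.mem_Ico.1 (Finset.mem_of_mem_erase hk')
        have h4 := XHA_cast (by omega) (by omega) h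
        exact (Finset.ne_of_mem_erase hk') h4.symm
      obtain ⟨z, hz, hz1⟩ := XHA_hensel (pol f) k e0 e1
      exact ⟨z, fun _ _ => ⟨by rw [hF]; exact hz, hz1⟩⟩
    · exact ⟨0, fun h1 h2 => absurd ⟨h1, h2⟩ hk⟩
  choose b hb using hb
  have hrpos : (0 : ℝ) < (r : ℝ)⁻¹ := inv_pos.2 (by exact_mod_cast hrp.pos)
  have hrlt : (r : ℝ)⁻¹ < 1 := inv_lt_one_of_one_lt₀ (by exact_mod_cast hrp.one_lt)
  have m0 : PadicInt.toZMod a0 = 0 := (XHA_lt a0).1 (ha0'.trans hrlt)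
  have m1 : PadicInt.toZMod a1 = 0 := by
    have h1 := (XHA_lt _).1 (ha1'.trans hrlt)
    rw [map_sub, map_natCast, ZMod.natCast_self, sub_zero] at h1
    exact h1
  have hres : ∀ k : Fin (m + 2 + 1), PadicInt.toZMod (if (k : ℕ) = 0 then a0 else if (k : ℕ) = 1 then a1 else b ((k : ℕ) - 1)) =
      (((k : ℕ) - 1 : ℕ) : ZMod r) := by
    intro k
    by_cases h0 : (k : ℕ) = 0
    · rw [if_pos h0, m0, h0]
      simp
    · by_cases h1 : (k : ℕ) = 1
      · rw [if_neg h0, if_pos h1, m1, h1]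
        simp
      · rw [if_neg h0, if_neg h1]
        exact (hb ((k : ℕ) - 1) (by omega) (by omega)).2
  refine ⟨fun k => if (k : ℕ) = 0 then a0 else if (k : ℕ) = 1 then a1 else b ((k : ℕ) - 1), fun k => ?_, ?_, ?_⟩
  · rw [← hF]
    by_cases h0 : (k : ℕ) = 0
    · simp only [if_pos h0]
      exact ha0
    · by_cases h1 : (k : ℕ) = 1
      · simp only [if_neg h0, if_pos h1]
        exact ha1
      · simp only [if_neg h0, if_neg h1]
        exact (hb ((k : ℕ) - 1) (by omega) (by omega)).1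
  · have e0 : ((0 : Fin (m + 2 + 1)) : ℕ) = 0 := rfl
    have e1 : ((1 : Fin (m + 2 + 1)) : ℕ) = 1 := rfl
    simp only [e0, e1, if_true, one_ne_zero, if_false]
    have h1 : a0 - a1 = (a0 + -(a1 - ((r : ℕ) : ℤ_[r]))) + -((r : ℕ) : ℤ_[r]) := by ring
    have h2 : ‖a0 + -(a1 - ((r : ℕ) : ℤ_[r]))‖ < (r : ℝ)⁻¹ := by
      refine lt_of_le_of_lt (PadicInt.nonarchimedean _ _) ?_
      rw [norm_neg]
      exact max_lt ha0' ha1'
    rw [h1, PadicInt.norm_add_eq_max_of_ne (by rw [norm_neg, hnr']; exact h2.ne), norm_neg, hnr']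
    exact max_eq_right h2.le
  · intro k k' hkk' hne
    refine XHA_one _ ?_
    simp only
    rw [map_sub, hres k, hres k', sub_ne_zero]
    intro h
    have h1 := XHA_cast (by omega) (by omega) h
    have h2 : (k : ℕ) < (k' : ℕ) := hkk'
    apply hne
    refine ⟨Fin.ext ?_, Fin.ext ?_⟩
    · show (k : ℕ) = 0
      omega
    · show (k' : ℕ) = 1
      omega

end

end Pool.Agent.TEX
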